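import Pool.Agent.Run7.h381.WU.Stm

/-!
Piece LAB of the project WU: splitting of labels.
-/

set_option autoImplicit false

namespace Run7.h465.WU

open MeasureTheory Filter Finset
open scoped ENNReal Topology unitInterval
open Run7.h381.WU

section

variable {Y : Type} [MeasurableSpace Y] (ν : Measure Y) [IsProbabilityMeasure ν]

theorem map_two : (Measure.infinitePi (fun _ : Fin 2 => ν)).map
    (MeasurableEquiv.finTwoArrow : (Fin 2 → Y) ≃ᵐ Y × Y) = ν.prod ν := by
  rw [Measure.infinitePi_eq_pi]
  exact (measurePreserving_finTwoArrow ν).map_eq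

theorem split (V : Type) :
    (Measure.infinitePi (fun _ : V => ν.prod ν)).map
      (fun w => ((fun v => (w v).1), (fun v => (w v).2))) =
    (Measure.infinitePi (fun _ : V => ν)).prod (Measure.infinitePi (fun _ : V => ν)) := by
  have h1 : (Measure.infinitePi (fun _ : V => Measure.infinitePi (fun _ : Fin 2 => ν))).map
      (fun w v => (MeasurableEquiv.finTwoArrow : (Fin 2 → Y) ≃ᵐ Y × Y) (w v)) =
      Measure.infinitePi (fun _ : V => ν.prod ν) := by
    rw [Measure.infinitePi_map_pi (f := fun _ => (MeasurableEquiv.finTwoArrow :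
      (Fin 2 → Y) ≃ᵐ Y × Y)) _ (fun _ => MeasurableEquiv.measurable _)]
    congr 1
    funext v
    exact map_two ν
  have h2 := Measure.infinitePi_map_curry (ι := V) (κ := Fin 2) (X := Y) (fun _ _ => ν)
  have h3 := Measure.map_infinitePi_infinitePi_of_inj (P := fun _ : Fin 2 × V => ν)
    (f := (Prod.swap : V × Fin 2 → Fin 2 × V)) Prod.swap_injective
  have h4 := Measure.infinitePi_map_curry (ι := Fin 2) (κ := V) (X := Y) (fun _ _ => ν)
  have h5 := map_two (Measure.infinitePi (fun _ : V => ν))
  rw [← h5, ← h4, ← h1, ← h2, ← h3]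
  have hm1 : Measurable (fun w : V → Y × Y => ((fun v => (w v).1), (fun v => (w v).2))) := by
    fun_prop
  have hm2 : Measurable (fun (w : V → Fin 2 → Y) v =>
      (MeasurableEquiv.finTwoArrow : (Fin 2 → Y) ≃ᵐ Y × Y) (w v)) :=
    measurable_pi_lambda _ (fun v => (MeasurableEquiv.measurable _).comp (measurable_pi_apply v))
  rw [Measure.map_map hm1 hm2, Measure.map_map (hm1.comp hm2) (MeasurableEquiv.measurable _),
    Measure.map_map ((hm1.comp hm2).comp (MeasurableEquiv.measurable _)) (by fun_prop),
    Measure.map_map (MeasurableEquiv.measurable _) (MeasurableEquiv.measurable _)]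
  rfl

end

theorem LAB : S_LAB := by
  let ν : Measure (ℕ → I) := Measure.infinitePi fun _ => (volume : Measure I)
  obtain ⟨g, hg, hgm⟩ := Measure.exists_measurable_map_eq (ν.prod ν)
  refine ⟨g, hg, fun V _ => ?_⟩
  have h1 : (labels V).map (fun u v => g (u v)) = Measure.infinitePi (fun _ : V => ν.prod ν) := by
    rw [labels, Measure.infinitePi_map_pi (f := fun _ => g) _ (fun _ => hg)]
    congr 1
    funext v
    exact hgm
  have h2 := split ν V
  rw [← h1, Measure.map_map (by fun_prop) (by fun_prop)] at h2
  exact h2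

theorem diag : ∀ᵐ p : I × I ∂((volume : Measure I).prod volume), p.1 ≠ p.2 := by
  rw [ae_iff]
  have hms : MeasurableSet {a : I × I | ¬ a.1 ≠ a.2} := by
    simp only [ne_eq, not_not]
    exact measurableSet_diagonal
  rw [Measure.measure_prod_null hms]
  refine Filter.Eventually.of_forall (fun x => ?_)
  have : (Prod.mk x ⁻¹' {a : I × I | ¬ a.1 ≠ a.2}) = {x} := by
    ext y
    simp [eq_comm]
  show volume (Prod.mk x ⁻¹' {a : I × I | ¬ a.1 ≠ a.2}) = 0
  rw [this]
  exact measure_singleton x

theorem INJ : S_INJ := by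
  intro V _
  have key : ∀ p : {p : V × V // p.1 ≠ p.2}, ∀ᵐ a ∂(labels2 V), a p.1.1 0 ≠ a p.1.2 0 := by
    rintro ⟨⟨v, w⟩, hvw⟩
    have h1 := Measure.infinitePi_map_eval_prod
      (P := fun _ : V => Measure.infinitePi fun _ : ℕ => (volume : Measure I)) hvw
    have h2 : ((Measure.infinitePi fun _ : ℕ => (volume : Measure I)).prod
        (Measure.infinitePi fun _ : ℕ => (volume : Measure I))).map
        (fun q => (q.1 0, q.2 0)) = (volume : Measure I).prod volume := by
      have := Measure.map_prod_map (Measure.infinitePi fun _ : ℕ => (volume : Measure I))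
        (Measure.infinitePi fun _ : ℕ => (volume : Measure I))
        (f := fun x : ℕ → I => x 0) (g := fun x : ℕ → I => x 0) (measurable_pi_apply 0)
        (measurable_pi_apply 0)
      rw [Measure.infinitePi_map_eval] at this
      exact this.symm
    have h3 : (labels2 V).map (fun a => (a v 0, a w 0)) = (volume : Measure I).prod volume := by
      rw [← h2, ← h1, Measure.map_map (by fun_prop) (by fun_prop)]
      rfl
    have h4 := diag
    rw [← h3] at h4
    exact ae_of_ae_map (f := fun a : V → ℕ → I => (a v 0, a w 0))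
      (p := fun p : I × I => p.1 ≠ p.2) (by fun_prop) h4
  have hall := ae_all_iff.mpr key
  filter_upwards [hall] with a ha v w h
  by_contra hne
  exact ha ⟨(v, w), hne⟩ h

end Run7.h465.WU
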